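import Pool.Agent.H66.FA.T

/-!
Board fab_modules, row LOW: a lower bound for the first coordinate of a trajectory.
-/

set_option autoImplicit false

namespace Pool.Agent.H25.FA

open Pool.Agent.H66.FA Pool.Agent.H63.Fins MeasureTheory Filter Topology

theorem pf_LOW (h1 : T_EUL) (_h2 : T_REG) (h3 : T_CVX) (h4 : T_MOM) (h5 : T_GAP) (h6 : T_POS)
    (h7 : T_STA) : T_LOW := by
  intro m B E L hL hE hA y hy
  have hy0 : y ≠ 0 := by
    rintro rfl
    exact lt_irrefl _ hy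
  obtain ⟨t₁, σ₁, ht1, hσ1, hst⟩ := h7 m B E L hL hE y hy
  have hc : 0 < L y := (h1 _ L hL y hy0).2.2.2.1
  obtain ⟨κ, δ, hκ, hδ, hi, hii⟩ := h5 m B E L hL hE hA (L y) σ₁ hc hσ1
  refine ⟨δ, t₁, hδ, ht1, fun γ T hγ h0 t ht => ?_⟩
  have hpos := h6 m B E L hL hE hA γ T hγ (by rw [h0]; exact hy)
  refine ⟨hpos t ht, fun htt => ?_⟩
  by_contra hlt
  rw [not_le] at hlt
  obtain ⟨hL1, hd, -⟩ := h4 m B E L hL hE γ T hγ t ht
  rw [h0] at hL1 hd
  obtain ⟨v, hv0, hv1, hv2⟩ := hii (γ t) hL1 (hpos t ht).le hlt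
  rw [hd v hv0] at hv2
  have hcont : ContinuousOn (fun s => γ s 0) (Set.Icc 0 t) := by
    intro s hs
    obtain ⟨-, ξ, hξ, -⟩ := hγ s ⟨by linarith [hs.1], lt_of_le_of_lt hs.2 ht.2⟩
    exact ((continuous_apply 0).continuousAt.comp hξ.continuousAt).continuousWithinAt
  have hσ : σ₁ ≤ ∫ s in (0 : ℝ)..t, γ s 0 := by
    have e1 := hst γ T hγ h0 (lt_of_le_of_lt htt ht.2)
    have i1 : IntervalIntegrable (fun s => γ s 0) volume 0 t₁ :=
      (hcont.mono (Set.Icc_subset_Icc_right htt)).intervalIntegrable_of_Icc ht1.le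
    have i2 : IntervalIntegrable (fun s => γ s 0) volume t₁ t :=
      (hcont.mono (Set.Icc_subset_Icc_left ht1.le)).intervalIntegrable_of_Icc htt
    have e2 : 0 ≤ ∫ s in t₁..t, γ s 0 :=
      intervalIntegral.integral_nonneg htt fun s hs =>
        (hpos s ⟨by linarith [hs.1], lt_of_le_of_lt hs.2 ht.2⟩).le
    rw [← intervalIntegral.integral_add_adjacent_intervals i1 i2]
    linarith
  have e3 := h3 _ L hL y (E (-∫ s in (0 : ℝ)..t, γ s 0) v) hy0
  have e4 := hi v hv0 hv1 _ hσ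
  linarith

end Pool.Agent.H25.FA
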