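import Pool.Agent.H66.FA.T

/-!
Board fab_modules, row SUB: `D²L(y)(v,v)` is a subsolution.
-/

set_option autoImplicit false

namespace Pool.Agent.H25.FA

open Pool.Agent.H66.FA Pool.Agent.H63.Fins MeasureTheory Filter Topology Matrix

open scoped MatrixOrder in
theorem trace_pos {n : ℕ} (P N : Matrix (Fin n) (Fin n) ℝ) (hP : P.PosDef) (hN : Nᵀ = N) :
    0 ≤ (P * N * (P * N)).trace ∧ ((P * N * (P * N)).trace = 0 → N = 0) := by
  obtain ⟨C, hC⟩ := CStarAlgebra.nonneg_iff_eq_star_mul_self.mp hP.posSemidef.nonneg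
  rw [star_eq_conjTranspose] at hC
  have hNh : Nᴴ = N := by
    rw [conjTranspose_eq_transpose_of_trivial, hN]
  set K : Matrix (Fin n) (Fin n) ℝ := C * N * Cᴴ with hK
  have hKh : Kᴴ = K := by
    rw [hK, conjTranspose_mul, conjTranspose_mul, conjTranspose_conjTranspose, hNh, mul_assoc]
  have htr : (P * N * (P * N)).trace = (Kᴴ * K).trace := by
    rw [hKh, hK, hC]
    have e1 : Cᴴ * C * N * (Cᴴ * C * N) = Cᴴ * (C * N * Cᴴ * (C * N)) := by
      simp only [Matrix.mul_assoc]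
    rw [e1, trace_mul_comm]
    simp only [Matrix.mul_assoc]
  have hunit : IsUnit P.det := (isUnit_iff_isUnit_det P).1 hP.isUnit
  refine ⟨?_, fun h0 => ?_⟩
  · rw [htr]
    exact (posSemidef_conjTranspose_mul_self K).trace_nonneg
  · rw [htr, trace_conjTranspose_mul_self_eq_zero_iff] at h0
    have e2 : P * N * P = 0 := by
      have e3 : P * N * P = Cᴴ * (C * N * Cᴴ) * C := by
        rw [hC]
        simp only [Matrix.mul_assoc]
      rw [e3, ← hK, h0, Matrix.mul_zero, Matrix.zero_mul]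
    calc N = P⁻¹ * (P * N * P) * P⁻¹ := by
          rw [Matrix.mul_assoc P N P, ← Matrix.mul_assoc P⁻¹ P (N * P),
            Matrix.nonsing_inv_mul _ hunit, Matrix.one_mul, Matrix.mul_assoc,
            Matrix.mul_nonsing_inv _ hunit, Matrix.mul_one]
      _ = 0 := by rw [e2, Matrix.mul_zero, Matrix.zero_mul]

/-- the derivative of a directional derivative -/
theorem fderiv_dir {n : ℕ} {g : V n → ℝ} {y : V n} (h : DifferentiableAt ℝ (fderiv ℝ g) y)
    (v u : V n) : fderiv ℝ (fun z => fderiv ℝ g z v) y u = fderiv ℝ (fderiv ℝ g) y u v := by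
  have h1 : HasFDerivAt (fun z => fderiv ℝ g z v)
      ((ContinuousLinearMap.apply ℝ ℝ v).comp (fderiv ℝ (fderiv ℝ g) y)) y :=
    (ContinuousLinearMap.apply ℝ ℝ v).hasFDerivAt.comp y h.hasFDerivAt
  rw [h1.fderiv]
  rfl

theorem diff_fderiv {n : ℕ} {g : V n → ℝ} {y : V n} (h : ContDiffAt ℝ (⊤ : ℕ∞) g y) :
    DifferentiableAt ℝ (fderiv ℝ g) y :=
  (h.fderiv_right (m := 1) (by norm_cast)).differentiableAt (by norm_num)

theorem pf_SUB (h1 : T_EUL) (h2 : T_REG) (h3 : T_INV) (h4 : T_SYM) (h5 : T_TRC) : T_SUB := by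
  intro n L d hL hd y v hy
  have hopen : IsOpen {y : V n | y ≠ 0} := isOpen_ne
  have hne : ∀ᶠ z in 𝓝 y, z ≠ 0 := hopen.mem_nhds hy
  obtain ⟨-, -, -, hsm, -, -, hreg⟩ := h2 n L hL
  have hsmA : ∀ (u w z : V n), z ≠ 0 → ContDiffAt ℝ (⊤ : ℕ∞) (fun y => d2 L y u w) z :=
    fun u w z hz => (hsm u w).contDiffAt (hopen.mem_nhds hz)
  have hsy : ∀ z : V n, z ≠ 0 → ∀ u w, d2 L z u w = d2 L z w u := fun z hz => (h1 n L hL z hz).2.2.1
  obtain ⟨-, -, hPD, hDD, -⟩ := hreg y hy
  set f : Fin n → Fin n → V n → ℝ := fun i j w => gm L w i j with hf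
  have hfc : ∀ i j z, z ≠ 0 → ContDiffAt ℝ (⊤ : ℕ∞) (f i j) z := fun i j z hz =>
    hsmA (ee i) (ee j) z hz
  -- the second derivative
  have hhh : ∀ i j, hh L v i j y = fderiv ℝ (fun z => fderiv ℝ (f i j) z v) y v := by
    intro i j
    have e1 : (fun z => fderiv ℝ (fun w => d2 L w v v) z (ee j)) =ᶠ[𝓝 y]
        fun z => fderiv ℝ (fun w => d2 L w (ee j) v) z v := by
      filter_upwards [hne] with z hz
      exact h4 n L hL z hz v v (ee j)
    have e2 : (fun z => fderiv ℝ (fun w => d2 L w (ee j) v) z (ee i)) =ᶠ[𝓝 y]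
        fun z => fderiv ℝ (f i j) z v := by
      filter_upwards [hne] with z hz
      have e3 : (fun w => d2 L w (ee j) v) =ᶠ[𝓝 z] fun w => d2 L w v (ee j) := by
        filter_upwards [hopen.mem_nhds hz] with w hw
        exact hsy w hw _ _
      rw [e3.fderiv_eq]
      exact h4 n L hL z hz v (ee j) (ee i)
    have e4 := hsmA (ee j) v y hy
    have e5 : IsSymmSndFDerivAt ℝ (fun w => d2 L w (ee j) v) y :=
      e4.isSymmSndFDerivAt (by
        rw [minSmoothness_of_isRCLikeNormedField]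
        exact WithTop.coe_le_coe.2 (le_top : (2 : ℕ∞) ≤ ⊤))
    unfold hh
    rw [e1.fderiv_eq, fderiv_dir (diff_fderiv e4), e5.eq, ← fderiv_dir (diff_fderiv e4),
      e2.fderiv_eq]
  set P : Matrix (Fin n) (Fin n) ℝ := (gm L y)⁻¹ with hP
  set N : Matrix (Fin n) (Fin n) ℝ := fun i j => fderiv ℝ (f i j) y v with hN
  have hNs : Nᵀ = N := by
    ext i j
    show fderiv ℝ (f j i) y v = fderiv ℝ (f i j) y v
    have e3 : f j i =ᶠ[𝓝 y] f i j := by
      filter_upwards [hne] with w hw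
      exact hsy w hw _ _
    rw [e3.fderiv_eq]
  -- the line
  have hline : HasDerivAt (fun t : ℝ => y + t • v) v 0 := by
    have := ((hasDerivAt_id (0 : ℝ)).smul_const v).const_add y
    simpa using this
  have hl0 : y + (0 : ℝ) • v = y := by rw [zero_smul, add_zero]
  have hM : ∀ i j, HasDerivAt (fun t : ℝ => gm L (y + t • v) i j) (N i j) 0 := by
    intro i j
    have e1 : HasFDerivAt (f i j) (fderiv ℝ (f i j) y) (y + (0 : ℝ) • v) := by
      rw [hl0]
      exact ((hfc i j y hy).differentiableAt (by simp)).hasFDerivAt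
    exact e1.comp_hasDerivAt 0 hline
  have hdet : (gm L (y + (0 : ℝ) • v)).det ≠ 0 := by
    rw [hl0]
    exact ne_of_gt hDD
  have hgi : ∀ i j, HasDerivAt (fun t : ℝ => gi L i j (y + t • v)) (-(P * N * P) i j) 0 := by
    intro i j
    have e1 := h3 n (fun t : ℝ => gm L (y + t • v)) N 0 hM hdet i j
    rw [hl0] at e1
    exact e1
  have hG1 : ∀ i j, HasDerivAt (fun t : ℝ => fderiv ℝ (f i j) (y + t • v) v)
      (hh L v i j y) 0 := by
    intro i j
    rw [hhh i j]
    have e0 : DifferentiableAt ℝ (fun z => fderiv ℝ (f i j) z v) y :=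
      (diff_fderiv (hfc i j y hy)).clm_apply (differentiableAt_const v)
    have e1 : HasFDerivAt (fun z => fderiv ℝ (f i j) z v)
        (fderiv ℝ (fun z => fderiv ℝ (f i j) z v) y) (y + (0 : ℝ) • v) := by
      rw [hl0]
      exact e0.hasFDerivAt
    exact e1.comp_hasDerivAt 0 hline
  have hsum : HasDerivAt (fun t : ℝ => ∑ i, ∑ j, gi L i j (y + t • v) *
      fderiv ℝ (f i j) (y + t • v) v)
      (∑ i, ∑ j, (-(P * N * P) i j * fderiv ℝ (f i j) (y + (0 : ℝ) • v) v +
        gi L i j (y + (0 : ℝ) • v) * hh L v i j y)) 0 := by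
    refine HasDerivAt.fun_sum fun i _ => HasDerivAt.fun_sum fun j _ => ?_
    exact (hgi i j).mul (hG1 i j)
  have hzero : (fun t : ℝ => ∑ i, ∑ j, gi L i j (y + t • v) *
      fderiv ℝ (f i j) (y + t • v) v) =ᶠ[𝓝 0] fun _ => 0 := by
    have e1 : Tendsto (fun t : ℝ => y + t • v) (𝓝 0) (𝓝 y) := by
      have := hline.continuousAt.tendsto
      rwa [hl0] at this
    filter_upwards [e1 hne] with t ht
    exact h5 n L d hL hd _ v ht
  have hder : ∑ i, ∑ j, (-(P * N * P) i j * fderiv ℝ (f i j) (y + (0 : ℝ) • v) v +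
        gi L i j (y + (0 : ℝ) • v) * hh L v i j y) = 0 := by
    have e1 := hsum.congr_of_eventuallyEq hzero.symm
    exact e1.unique (hasDerivAt_const (0 : ℝ) (0 : ℝ))
  rw [hl0] at hder
  have hkey : ∑ i, ∑ j, gi L i j y * hh L v i j y = (P * N * (P * N)).trace := by
    have e1 : (P * N * (P * N)).trace = ∑ i, ∑ j, (P * N * P) i j * N i j := by
      rw [← Matrix.mul_assoc]
      simp only [Matrix.trace, Matrix.diag, Matrix.mul_apply (M := P * N * P)]
      refine Finset.sum_congr rfl fun i _ => Finset.sum_congr rfl fun j _ => ?_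
      have : N j i = N i j := congrFun (congrFun hNs i) j
      rw [this]
    rw [e1]
    have e2 : ∑ i, ∑ j, gi L i j y * hh L v i j y - ∑ i, ∑ j, (P * N * P) i j * N i j = 0 := by
      rw [← hder, ← Finset.sum_sub_distrib]
      refine Finset.sum_congr rfl fun i _ => ?_
      rw [← Finset.sum_sub_distrib]
      refine Finset.sum_congr rfl fun j _ => ?_
      show gi L i j y * hh L v i j y - (P * N * P) i j * N i j =
        -(P * N * P) i j * N i j + gi L i j y * hh L v i j y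
      ring
    linarith
  obtain ⟨e1, e2⟩ := trace_pos P N hPD.inv hNs
  rw [hkey]
  refine ⟨e1, fun h0 i j => ?_⟩
  have e3 := e2 h0
  exact congrFun (congrFun e3 i) j

end Pool.Agent.H25.FA
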